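import Pool.Agent.Helper55.CF.Goals

/-!
Packet CS (MP_b612a6_ag): quadratic term of rank at most two.
-/

namespace Pool.Agent.Helper5.CF

open CF55

noncomputable section

/-- vanishing on flags -/
theorem flag {T : Tri} {e : Fin 6 → V} {i j k : Fin 6}
    (h : ∀ a b c : Fin 6, a ≤ i → b ≤ j → c ≤ k → T (e a) (e b) (e c) = 0) :
    ∀ a ∈ Fl e i, ∀ b ∈ Fl e j, ∀ c ∈ Fl e k, T a b c = 0 := by
  intro a ha
  induction ha using Submodule.span_induction with
  | mem x hx =>
    obtain ⟨i', hi', rfl⟩ := hx
    intro b hb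
    induction hb using Submodule.span_induction with
    | mem y hy =>
      obtain ⟨j', hj', rfl⟩ := hy
      intro c hc
      induction hc using Submodule.span_induction with
      | mem z hz =>
        obtain ⟨k', hk', rfl⟩ := hz
        exact h _ _ _ hi' hj' hk'
      | zero => simp
      | add x y _ _ hx hy => rw [map_add, hx, hy, add_zero]
      | smul c x _ hx => rw [map_smul, hx, smul_zero]
    | zero => intro c hc; simp
    | add x y _ _ hx hy =>
      intro c hc
      rw [map_add, LinearMap.add_apply, hx c hc, hy c hc, add_zero]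
    | smul c x _ hx =>
      intro d hd
      rw [map_smul, LinearMap.smul_apply, hx d hd, smul_zero]
  | zero => intro b hb c hc; simp
  | add x y _ _ hx hy =>
    intro b hb c hc
    rw [map_add, LinearMap.add_apply, LinearMap.add_apply, hx b hb c hc, hy b hb c hc, add_zero]
  | smul r x _ hx =>
    intro b hb c hc
    rw [map_smul, LinearMap.smul_apply, LinearMap.smul_apply, hx b hb c hc, smul_zero]

theorem finrank_ge {K : Submodule ℂ V} {n : ℕ} (u : Fin n → V) (hu : LinearIndependent ℂ u)
    (h : ∀ i, u i ∈ K) : n ≤ Module.finrank ℂ K := by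
  have h1 : Submodule.span ℂ (Set.range u) ≤ K := by
    rw [Submodule.span_le]
    rintro _ ⟨i, rfl⟩
    exact h i
  have h2 := Submodule.finrank_mono h1
  rwa [finrank_span_eq_card hu, Fintype.card_fin] at h2

theorem mem_Fl {e : Fin 6 → V} (b : Module.Basis (Fin 6) ℂ V) (hb : ⇑b = e) (k : Fin 6) (v : V) :
    v ∈ Fl e k ↔ ∀ i, k < i → b.coord i v = 0 := by
  rw [Fl, ← hb, Module.Basis.mem_span_image]
  constructor
  · intro h i hi
    by_contra hne
    have : i ∈ (b.repr v).support := by
      rw [Finsupp.mem_support_iff]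
      exact hne
    exact absurd (h this) (not_le.2 hi)
  · intro h i hi
    rw [Finset.mem_coe, Finsupp.mem_support_iff] at hi
    by_contra hne
    exact hi (h i (not_le.1 hne))

theorem e_mem_Fl {e : Fin 6 → V} {i k : Fin 6} (h : i ≤ k) : e i ∈ Fl e k :=
  Submodule.subset_span ⟨i, h, rfl⟩

theorem Fl_mono {e : Fin 6 → V} {i k : Fin 6} (h : i ≤ k) : Fl e i ≤ Fl e k :=
  Submodule.span_mono (Set.image_mono (fun _ hx => le_trans hx h))

theorem stmtCS : G_CS := by
  intro T e w hS hli hmono hw0 hsupp h34 h234 hor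
  obtain ⟨b, hb⟩ : ∃ b : Module.Basis (Fin 6) ℂ V, ⇑b = e :=
    ⟨basisOfLinearIndependentOfCardEqFinrank hli (by simp),
      coe_basisOfLinearIndependentOfCardEqFinrank hli (by simp)⟩
  have hbe : ∀ i, b i = e i := fun i => congrFun hb i
  have hsum : ∑ i, w i = w 0 + w 1 + w 2 + w 3 + w 4 + w 5 := Fin.sum_univ_six w
  rw [hsum, hw0] at h34 h234
  have hvan : ∀ a b c, w a + w b + w c ≤ (0 + w 1 + w 2 + w 3 + w 4 + w 5) / 2 →
      T (e a) (e b) (e c) = 0 := by
    intro a b c h
    by_contra hne
    have := hsupp a b c hne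
    rw [hsum, hw0] at this
    linarith
  have hle : ∀ i j : Fin 6, i ≤ j → w i ≤ w j := fun i j h => hmono h
  have l01 := hle 0 1 (by decide)
  have l12 := hle 1 2 (by decide)
  have l23 := hle 2 3 (by decide)
  have l34 := hle 3 4 (by decide)
  have l45 := hle 4 5 (by decide)
  rw [hw0] at l01
  have l5 : ∀ i, w i ≤ w 5 := fun i => hle i 5 (Fin.le_last i)
  have z00 : ∀ a, T (e 0) (e 0) (e a) = 0 := by
    intro a
    apply hvan
    have := l5 a
    rw [hw0]
    linarith
  have z0 : ∀ i j : Fin 6, i ≤ 3 → j ≤ 4 → T (e 0) (e i) (e j) = 0 := by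
    intro i j hi hj
    apply hvan
    have h1 := hle i 3 hi
    have h2 := hle j 4 hj
    rw [hw0]
    linarith
  have z15 : T (e 0) (e 1) (e 5) = 0 := by
    apply hvan
    rw [hw0]
    linarith
  have sym0 : ∀ i j, T (e 0) (e i) (e j) = T (e 0) (e j) (e i) := fun i j => hS.s23 _ _ _
  set m2 := T (e 0) (e 2) (e 5) with hm2
  set m3 := T (e 0) (e 3) (e 5) with hm3
  set m4 := T (e 0) (e 4) (e 5) with hm4
  set β := T (e 0) (e 4) (e 4) with hβ
  set γ := T (e 0) (e 5) (e 5) with hγ
  -- coordinates
  set x : Fin 6 → (V →ₗ[ℂ] ℂ) := fun i => b.coord i with hx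
  have hxe : ∀ i j, x i (e j) = if i = j then 1 else 0 := by
    intro i j
    simp only [hx, ← hbe, Module.Basis.coord_apply, Module.Basis.repr_self, Finsupp.single_apply]
    by_cases h : i = j
    · rw [if_pos h, if_pos h.symm]
    · rw [if_neg h, if_neg (fun h' => h h'.symm)]
  have hv : ∀ v : V, v = x 0 v • e 0 + x 1 v • e 1 + x 2 v • e 2 + x 3 v • e 3 + x 4 v • e 4
      + x 5 v • e 5 := by
    intro v
    conv_lhs => rw [← b.sum_repr v]
    rw [Fin.sum_univ_six]
    simp only [hbe]
    rfl
  have hP : ∀ v, T (e 0) (e 0) v = 0 := by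
    intro v
    rw [hv v]
    simp only [map_add, map_smul, z00, smul_zero, add_zero]
  have hB : ∀ v, T (e 0) v v = β * x 4 v ^ 2 + 2 * x 5 v * (m2 * x 2 v + m3 * x 3 v + m4 * x 4 v)
      + γ * x 5 v ^ 2 := by
    intro v
    have a1 : T (e 0) (e 5) (e 0) = 0 := by rw [sym0]; exact z00 5
    have a2 : T (e 0) (e 5) (e 1) = 0 := by rw [sym0]; exact z15
    have a3 : T (e 0) (e 5) (e 2) = m2 := sym0 _ _
    have a4 : T (e 0) (e 5) (e 3) = m3 := sym0 _ _
    have a5 : T (e 0) (e 5) (e 4) = m4 := sym0 _ _
    have a6 : T (e 0) (e 4) (e 0) = 0 := by rw [sym0]; exact z00 4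
    have a7 : T (e 0) (e 4) (e 1) = 0 := by rw [sym0]; exact z0 1 4 (by decide) (by decide)
    have a8 : T (e 0) (e 4) (e 2) = 0 := by rw [sym0]; exact z0 2 4 (by decide) (by decide)
    have a9 : T (e 0) (e 4) (e 3) = 0 := by rw [sym0]; exact z0 3 4 (by decide) (by decide)
    have b1 : ∀ j : Fin 6, j ≤ 4 → T (e 0) (e 1) (e j) = 0 := fun j hj => z0 1 j (by decide) hj
    have b2 : ∀ j : Fin 6, j ≤ 4 → T (e 0) (e 2) (e j) = 0 := fun j hj => z0 2 j (by decide) hj
    have b3 : ∀ j : Fin 6, j ≤ 4 → T (e 0) (e 3) (e j) = 0 := fun j hj => z0 3 j (by decide) hj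
    conv_lhs => rw [hv v]
    simp only [map_add, map_smul, LinearMap.add_apply, LinearMap.smul_apply, smul_eq_mul, hP, z15,
      a1, a2, a3, a4, a5, a6, a7, a8, a9, b1 0 (by decide), b1 1 (by decide), b1 2 (by decide),
      b1 3 (by decide), b1 4 (by decide), b2 0 (by decide), b2 1 (by decide), b2 2 (by decide),
      b2 3 (by decide), b2 4 (by decide), b3 0 (by decide), b3 1 (by decide), b3 2 (by decide),
      b3 3 (by decide), b3 4 (by decide), ← hm2, ← hm3, ← hm4, ← hβ, ← hγ]
    ring
  have he0 : e 0 ≠ 0 := hli.ne_zero 0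
  have hmemFl : ∀ (k : Fin 6) (v : V), v ∈ Fl e k ↔ ∀ i, k < i → x i v = 0 :=
    fun k v => mem_Fl b hb k v
  have hr2 : 2 ≤ Module.finrank ℂ (Fl e 1) := by
    refine finrank_ge ![e 0, e 1] ?_ ?_
    · have := hli.comp ![(0 : Fin 6), 1] (by decide)
      have h2 : e ∘ ![(0 : Fin 6), 1] = ![e 0, e 1] := by
        funext i
        fin_cases i <;> rfl
      rwa [h2] at this
    · intro i
      fin_cases i
      · exact e_mem_Fl (by decide)
      · exact e_mem_Fl (by decide)
  have hr3 : 3 ≤ Module.finrank ℂ (Fl e 2) := by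
    refine finrank_ge ![e 0, e 1, e 2] ?_ ?_
    · have := hli.comp ![(0 : Fin 6), 1, 2] (by decide)
      have h2 : e ∘ ![(0 : Fin 6), 1, 2] = ![e 0, e 1, e 2] := by
        funext i
        fin_cases i <;> rfl
      rwa [h2] at this
    · intro i
      fin_cases i
      · exact e_mem_Fl (by decide)
      · exact e_mem_Fl (by decide)
      · exact e_mem_Fl (by decide)
  -- vanishing on flags from a weight inequality
  have hflag : ∀ i j k : Fin 6, w i + w j + w k ≤ (0 + w 1 + w 2 + w 3 + w 4 + w 5) / 2 →
      ∀ a ∈ Fl e i, ∀ b ∈ Fl e j, ∀ c ∈ Fl e k, T a b c = 0 := by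
    intro i j k h
    apply flag
    intro a b c ha hb hc
    apply hvan
    have := hle a i ha
    have := hle b j hb
    have := hle c k hc
    linarith
  -- the common conclusion of case I
  have caseI : ∀ y₁ y₂ : V →ₗ[ℂ] ℂ, LinearIndependent ℂ ![y₁, y₂] →
      (∀ v, T (e 0) v v = y₁ v * y₂ v) →
      (∀ v, y₁ v = 0 → y₂ v = 0 → x 4 v = 0 ∧ x 5 v = 0) →
      (∀ v, x 4 v = 0 → x 5 v = 0 → y₁ v = 0 ∧ y₂ v = 0) →
      (0 + w 1 + w 2 + w 3 + w 4 + w 5) / 2 < w 4 + w 5 → R2pat T := by
    intro y₁ y₂ hy hyy hk hk' hw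
    refine ⟨e 0, he0, hP, y₁, y₂, hy, hyy, Fl e 1, Fl e 2, e_mem_Fl (by decide),
      Fl_mono (by decide), ?_, hr2, hr3, ?_⟩
    · intro v hv'
      rw [hmemFl] at hv'
      have := hk' v (hv' 4 (by decide)) (hv' 5 (by decide))
      exact ⟨this.1, this.2⟩
    · intro a ha c hc v hv'
      refine hflag 1 2 3 (by linarith) a ha c hc v ?_
      rw [hmemFl]
      intro i hi
      have := hk v hv'.1 hv'.2
      have hi2 : i = 4 ∨ i = 5 := by
        revert hi
        revert i
        decide
      rcases hi2 with rfl | rfl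
      · exact this.1
      · exact this.2
  by_cases h23 : m2 = 0 ∧ m3 = 0
  · -- case I
    obtain ⟨h2, h3⟩ := h23
    have hB' : ∀ v, T (e 0) v v = β * x 4 v ^ 2 + 2 * m4 * x 4 v * x 5 v + γ * x 5 v ^ 2 := by
      intro v
      rw [hB v, h2, h3]
      ring
    by_cases hb0 : β = 0
    · by_cases h4 : m4 = 0
      · right
        obtain ⟨s, hs⟩ := IsAlgClosed.exists_pow_nat_eq γ (n := 2) (by norm_num)
        refine ⟨e 0, he0, hP, s • x 5, fun v => ?_⟩
        rw [hB' v, hb0, h4, LinearMap.smul_apply, smul_eq_mul, mul_pow, hs]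
        ring
      · left
        refine caseI (x 5) ((2 * m4) • x 4 + γ • x 5) ?_ ?_ ?_ ?_ ?_
        · rw [LinearIndependent.pair_iff]
          intro s t hst
          have c4 := congrArg (fun f : V →ₗ[ℂ] ℂ => f (e 4)) hst
          have c5 := congrArg (fun f : V →ₗ[ℂ] ℂ => f (e 5)) hst
          simp only [LinearMap.add_apply, LinearMap.smul_apply, smul_eq_mul, hxe,
            LinearMap.zero_apply] at c4 c5
          norm_num [Fin.ext_iff] at c4 c5
          have ht : t = 0 := by
            rcases c4 with c4 | c4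
            · exact c4
            · exact absurd c4 h4
          refine ⟨?_, ht⟩
          rw [ht] at c5
          simpa using c5
        · intro v
          rw [hB' v, hb0]
          simp only [LinearMap.add_apply, LinearMap.smul_apply, smul_eq_mul]
          ring
        · intro v h5 hh
          simp only [LinearMap.add_apply, LinearMap.smul_apply, smul_eq_mul, h5, mul_zero,
            add_zero, mul_eq_zero] at hh
          refine ⟨?_, h5⟩
          rcases hh with (hh | hh) | hh
          · norm_num at hh
          · exact absurd hh h4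
          · exact hh
        · intro v h4' h5
          refine ⟨h5, ?_⟩
          simp only [LinearMap.add_apply, LinearMap.smul_apply, smul_eq_mul, h4', h5, mul_zero,
            add_zero]
        · have := hsupp 0 4 5 h4
          rw [hsum, hw0] at this
          linarith
    · obtain ⟨δ, hδ⟩ := IsAlgClosed.exists_pow_nat_eq (m4 ^ 2 - β * γ) (n := 2) (by norm_num)
      have hfac : ∀ v, T (e 0) v v = (x 4 v + (m4 + δ) / β * x 5 v) *
          (β * x 4 v + (m4 - δ) * x 5 v) := by
        intro v
        rw [hB' v]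
        have : γ = (m4 ^ 2 - δ ^ 2) / β := by
          rw [hδ]
          field_simp
          ring
        rw [this]
        field_simp
        ring
      by_cases hδ0 : δ = 0
      · right
        obtain ⟨s, hs⟩ := IsAlgClosed.exists_pow_nat_eq β (n := 2) (by norm_num)
        refine ⟨e 0, he0, hP, s • (x 4 + (m4 / β) • x 5), fun v => ?_⟩
        rw [hfac v, hδ0]
        simp only [LinearMap.add_apply, LinearMap.smul_apply, smul_eq_mul, mul_pow, hs]
        field_simp
        ring
      · left
        refine caseI (x 4 + ((m4 + δ) / β) • x 5) (β • x 4 + (m4 - δ) • x 5) ?_ ?_ ?_ ?_ ?_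
        · rw [LinearIndependent.pair_iff]
          intro s t hst
          have c4 := congrArg (fun f : V →ₗ[ℂ] ℂ => f (e 4)) hst
          have c5 := congrArg (fun f : V →ₗ[ℂ] ℂ => f (e 5)) hst
          simp only [LinearMap.add_apply, LinearMap.smul_apply, smul_eq_mul, hxe,
            LinearMap.zero_apply] at c4 c5
          norm_num [Fin.ext_iff] at c4 c5
          -- s + t β = 0, s (m4+δ)/β + t (m4-δ) = 0
          have hs : s = - (t * β) := by linear_combination c4
          rw [hs] at c5
          have h6 : t * δ = 0 := by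
            have : -(t * β) * ((m4 + δ) / β) + t * (m4 - δ) = -2 * (t * δ) := by
              field_simp
              ring
            rw [this] at c5
            linear_combination (-1 / 2 : ℂ) * c5
          have ht : t = 0 := by
            rcases mul_eq_zero.1 h6 with h | h
            · exact h
            · exact absurd h hδ0
          exact ⟨by rw [hs, ht]; ring, ht⟩
        · intro v
          rw [hfac v]
          simp only [LinearMap.add_apply, LinearMap.smul_apply, smul_eq_mul]
        · intro v h1 h2'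
          simp only [LinearMap.add_apply, LinearMap.smul_apply, smul_eq_mul] at h1 h2'
          have hx4 : x 4 v = - ((m4 + δ) / β * x 5 v) := by linear_combination h1
          rw [hx4] at h2'
          have h6 : δ * x 5 v = 0 := by
            have : β * -((m4 + δ) / β * x 5 v) + (m4 - δ) * x 5 v = -2 * (δ * x 5 v) := by
              field_simp
              ring
            rw [this] at h2'
            linear_combination (-1 / 2 : ℂ) * h2'
          have h5 : x 5 v = 0 := by
            rcases mul_eq_zero.1 h6 with h | h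
            · exact absurd h hδ0
            · exact h
          exact ⟨by rw [hx4, h5]; ring, h5⟩
        · intro v h4' h5
          simp only [LinearMap.add_apply, LinearMap.smul_apply, smul_eq_mul, h4', h5, mul_zero,
            add_zero, and_self]
        · have := hsupp 0 4 4 hb0
          rw [hsum, hw0] at this
          linarith
  · -- case II
    have hb0 : β = 0 := by
      rcases hor with h | h
      · exact h
      · exact absurd ⟨h.2.1, h.2.2⟩ h23
    left
    set L : V →ₗ[ℂ] ℂ := (2 * m2) • x 2 + (2 * m3) • x 3 + (2 * m4) • x 4 + γ • x 5 with hL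
    have hLe : ∀ j, L (e j) = (2 * m2) * (if (2 : Fin 6) = j then 1 else 0) +
        (2 * m3) * (if (3 : Fin 6) = j then 1 else 0) +
        (2 * m4) * (if (4 : Fin 6) = j then 1 else 0) + γ * (if (5 : Fin 6) = j then 1 else 0) := by
      intro j
      simp only [hL, LinearMap.add_apply, LinearMap.smul_apply, smul_eq_mul, hxe]
    have L0 : L (e 0) = 0 := by rw [hLe]; norm_num [Fin.ext_iff]
    have L1 : L (e 1) = 0 := by rw [hLe]; norm_num [Fin.ext_iff]
    have L2 : L (e 2) = 2 * m2 := by rw [hLe]; norm_num [Fin.ext_iff]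
    have L3 : L (e 3) = 2 * m3 := by rw [hLe]; norm_num [Fin.ext_iff]
    have hLI : LinearIndependent ℂ ![x 5, L] := by
      rw [LinearIndependent.pair_iff]
      intro s t hst
      have c2 := congrArg (fun f : V →ₗ[ℂ] ℂ => f (e 2)) hst
      have c3 := congrArg (fun f : V →ₗ[ℂ] ℂ => f (e 3)) hst
      have c5 := congrArg (fun f : V →ₗ[ℂ] ℂ => f (e 5)) hst
      simp only [LinearMap.add_apply, LinearMap.smul_apply, smul_eq_mul, hxe,
        LinearMap.zero_apply, L2, L3] at c2 c3 c5
      norm_num [Fin.ext_iff] at c2 c3 c5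
      have ht : t = 0 := by
        by_contra hne
        exact h23 ⟨by simpa [hne] using c2, by simpa [hne] using c3⟩
      refine ⟨?_, ht⟩
      rw [ht] at c5
      simpa using c5
    have hBL : ∀ v, T (e 0) v v = x 5 v * L v := by
      intro v
      rw [hB v, hb0]
      simp only [hL, LinearMap.add_apply, LinearMap.smul_apply, smul_eq_mul]
      ring
    have hker4 : ∀ v, v ∈ LinearMap.ker (x 5) ⊓ LinearMap.ker L → v ∈ Fl e 4 := by
      intro v hv'
      rw [hmemFl]
      intro i hi
      have hi2 : i = 5 := by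
        revert hi
        revert i
        decide
      rw [hi2]
      exact hv'.1
    by_cases h2 : m2 = 0
    · have h3 : m3 ≠ 0 := fun h => h23 ⟨h2, h⟩
      have hw := hsupp 0 3 5 h3
      rw [hsum, hw0] at hw
      have x50 : ∀ i : Fin 6, i ≠ 5 → x 5 (e i) = 0 := by
        intro i hi
        rw [hxe, if_neg (fun h => hi h.symm)]
      have L20 : L (e 2) = 0 := by rw [L2, h2, mul_zero]
      refine ⟨e 0, he0, hP, x 5, L, hLI, hBL, Fl e 1, Fl e 2, e_mem_Fl (by decide),
        Fl_mono (by decide), ?_, hr2, hr3, ?_⟩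
      · rw [Fl, Submodule.span_le]
        rintro _ ⟨i, hi, rfl⟩
        have hi2 : i = 0 ∨ i = 1 ∨ i = 2 := by
          have : i ≤ 2 := hi
          revert this
          revert i
          decide
        rcases hi2 with rfl | rfl | rfl
        · exact ⟨x50 0 (by decide), L0⟩
        · exact ⟨x50 1 (by decide), L1⟩
        · exact ⟨x50 2 (by decide), L20⟩
      · intro a ha c hc v hv'
        exact hflag 1 2 4 (by linarith) a ha c hc v (hker4 v hv')
    · have hw := hsupp 0 2 5 h2
      rw [hsum, hw0] at hw
      refine ⟨e 0, he0, hP, x 5, L, hLI, hBL, Fl e 1, Fl e 3 ⊓ LinearMap.ker L,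
        e_mem_Fl (by decide), ?_, ?_, hr2, ?_, ?_⟩
      · refine le_inf (Fl_mono (by decide)) ?_
        rw [Fl, Submodule.span_le]
        rintro _ ⟨i, hi, rfl⟩
        have hi2 : i = 0 ∨ i = 1 := by
          have : i ≤ 1 := hi
          revert this
          revert i
          decide
        rcases hi2 with rfl | rfl
        · exact L0
        · exact L1
      · rintro v ⟨hv1, hv2⟩
        refine ⟨?_, hv2⟩
        exact (hmemFl 3 v).1 hv1 5 (by decide)
      · refine finrank_ge ![e 0, e 1, m3 • e 2 - m2 • e 3] ?_ ?_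
        · rw [Fintype.linearIndependent_iff]
          intro g hg
          rw [Fin.sum_univ_three] at hg
          simp only [Matrix.cons_val_zero, Matrix.cons_val_one, Matrix.cons_val] at hg
          have c0 := congrArg (x 0) hg
          have c1 := congrArg (x 1) hg
          have c3 := congrArg (x 3) hg
          simp only [map_add, map_sub, map_smul, smul_eq_mul, hxe, map_zero] at c0 c1 c3
          norm_num [Fin.ext_iff, h2] at c0 c1 c3
          intro i
          fin_cases i
          · exact c0
          · exact c1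
          · exact c3
        · intro i
          fin_cases i
          · exact ⟨e_mem_Fl (by decide), L0⟩
          · exact ⟨e_mem_Fl (by decide), L1⟩
          · refine ⟨Submodule.sub_mem _ (Submodule.smul_mem _ _ (e_mem_Fl (by decide)))
              (Submodule.smul_mem _ _ (e_mem_Fl (by decide))), ?_⟩
            change L (m3 • e 2 - m2 • e 3) = 0
            rw [map_sub, map_smul, map_smul, L2, L3, smul_eq_mul, smul_eq_mul]
            ring
      · intro a ha c hc v hv'
        exact hflag 1 3 4 (by linarith) a ha c hc.1 v (hker4 v hv')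

end

end Pool.Agent.Helper5.CF
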